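import Mathlib
import Pool.Agent.Lib.MP_85963d_gt.Interfaces

/-!
# Module RED: reduction to one variable (Paper section 7)
-/

set_option autoImplicit false

open MeasureTheory Set Filter Topology Quaternion
open scoped Real ContDiff

namespace Pool.Agent.MP85963d

namespace H26

/-! ### frames -/

theorem conj_rotJ_I (t : ℝ) : conjQ (rot qJ t) qI = Real.cos t • qI - Real.sin t • qK := by
  have := conj_rot_gen (a := qJ) (b := qI) (c := -qK) isImUnit_J qJ_mul_qI
    (by rw [neg_neg, qI_mul_qJ]) (by rw [neg_mul, qK_mul_qJ, neg_neg]) t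
  rw [this]; module

theorem conj_xj_I (t : ℝ) : conjQ (xj t) qI =
    (1 / Real.sqrt (1 + t ^ 2)) • qI + (t / Real.sqrt (1 + t ^ 2)) • qK := by
  rw [xj, conj_rotJ_I, Real.cos_neg, Real.sin_neg, Real.cos_arctan, Real.sin_arctan]
  module

theorem im3_qI : im3 qI = !₂[1, 0, 0] := rfl
theorem im3_qJ : im3 qJ = !₂[0, 1, 0] := rfl
theorem im3_qK : im3 qK = !₂[0, 0, 1] := rfl

theorem fu_xj (t : ℝ) : fu (xj t) = !₂[1 / Real.sqrt (1 + t ^ 2), 0, t / Real.sqrt (1 + t ^ 2)] := by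
  rw [fu, fr, conj_xj_I, map_add, map_smul, map_smul, im3_qI, im3_qK]
  ext i
  fin_cases i <;> simp

theorem fv_xj (t : ℝ) : fv (xj t) = !₂[0, 1, 0] := by
  rw [fv, fr, xj, conj_rot_self isImUnit_J, im3_qJ]

theorem xj_ne_zero (t : ℝ) : xj t ≠ 0 := rot_ne_zero isImUnit_J _

theorem fu_rotK_xj (α t : ℝ) : fu (rot qK α * xj t) =
    !₂[Real.cos α / Real.sqrt (1 + t ^ 2), Real.sin α / Real.sqrt (1 + t ^ 2),
      t / Real.sqrt (1 + t ^ 2)] := by
  rw [fu, fr, conjQ_mul, conj_xj_I, conjQ_add, conjQ_smul, conjQ_smul, conj_rotK_I,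
    conj_rot_self isImUnit_K]
  simp only [map_add, map_smul, im3_qI, im3_qJ, im3_qK]
  ext i
  fin_cases i <;> simp <;> ring

theorem fu_circle (a θ : ℝ) : fu (xj a * rot qK θ) =
    !₂[Real.cos θ / Real.sqrt (1 + a ^ 2), Real.sin θ, a * Real.cos θ / Real.sqrt (1 + a ^ 2)] := by
  rw [fu_rotK, fu_xj, fv_xj]
  ext i
  fin_cases i <;> simp <;> ring

/-- two quaternions with the same vector `u` -/
theorem exists_of_fu {x y : ℍ} (hx : x ≠ 0) (hy : y ≠ 0) (h : fu x = fu y) :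
    ∃ r s : ℝ, r ≠ 0 ∧ y = r • (x * rot qI s) := by
  have hc : conjQ x qI = conjQ y qI := by
    have h0 := congrFun (congrArg WithLp.ofLp h) 0
    have h1 := congrFun (congrArg WithLp.ofLp h) 1
    have h2 := congrFun (congrArg WithLp.ofLp h) 2
    simp only [fu, fr, im3_apply] at h0 h1 h2
    apply Quaternion.ext
    · rw [re_conjQ hx, re_conjQ hy]
    · simpa using h0
    · simpa using h1
    · simpa using h2
  set q : ℍ := x⁻¹ * y with hq
  have hyq : y = x * q := by rw [hq, mul_inv_cancel_left₀ hx]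
  have hq0 : q ≠ 0 := by rw [hq]; exact mul_ne_zero (inv_ne_zero hx) hy
  have hcomm : q * qI = qI * q := by
    have h3 : y * qI = x * qI * x⁻¹ * y := by
      have : x * qI * x⁻¹ = y * qI * y⁻¹ := hc
      rw [this, inv_mul_cancel_right₀ hy]
    rw [hq, mul_assoc, h3]
    simp only [mul_assoc]
    rw [inv_mul_cancel_left₀ hx]
  have hJ : q.imJ = 0 := by
    have := congrArg QuaternionAlgebra.imK hcomm
    simp [Quaternion.imK_mul, qI] at this
    linarith
  have hK : q.imK = 0 := by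
    have := congrArg QuaternionAlgebra.imJ hcomm
    simp [Quaternion.imJ_mul, qI] at this
    linarith
  set z : ℂ := ⟨q.re, q.imI⟩ with hz
  have hz0 : z ≠ 0 := by
    intro h0
    apply hq0
    have h1 := congrArg Complex.re h0
    have h2 := congrArg Complex.im h0
    apply Quaternion.ext
    · simpa [hz] using h1
    · simpa [hz] using h2
    · simpa using hJ
    · simpa using hK
  refine ⟨‖z‖, 2 * Complex.arg z, norm_ne_zero_iff.2 hz0, ?_⟩
  have hqr : q = ‖z‖ • rot qI (2 * Complex.arg z) := by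
    have h1 : ‖z‖ * Real.cos (Complex.arg z) = q.re := by
      rw [Complex.norm_mul_cos_arg]
    have h2 : ‖z‖ * Real.sin (Complex.arg z) = q.imI := by
      rw [Complex.norm_mul_sin_arg]
    have e : 2 * Complex.arg z / 2 = Complex.arg z := by ring
    rw [rot, e, smul_add, smul_smul, smul_smul, h1, h2]
    apply Quaternion.ext
    · simp [qI]
    · simp [qI]
    · simpa [qI] using hJ
    · simpa [qI] using hK
  rw [hyq, hqr, mul_smul_comm]

theorem eq_of_fu {f : ℍ → ℝ} (hf : Cts f) (hu : IsU f) {x y : ℍ} (hx : x ≠ 0) (hy : y ≠ 0)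
    (h : fu x = fu y) : f x = f y := by
  obtain ⟨r, s, hr, rfl⟩ := exists_of_fu hx hy h
  rw [hf.hom r _ hr (mul_ne_zero hx (rot_ne_zero isImUnit_I s)), hu.rotI]

theorem mulI_of_isU {f : ℍ → ℝ} (hu : IsU f) (x : ℍ) : f (x * qI) = f x := by
  have := hu.rotI x π
  rwa [rot_pi] at this

theorem mulJ_of_isU {f : ℍ → ℝ} (hu : IsU f) (x : ℍ) : f (x * qJ) = f x := by
  have h : x * qJ = x * qK * qI := by rw [mul_assoc, qK_mul_qI]
  rw [h, mulI_of_isU hu, hu.mulK]

theorem xj_mul_qJ (t : ℝ) : xj t * qJ = qJ * xj t := (rot_mul_comm qJ _).symm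

theorem qJ_mul_rotK (α : ℝ) : qJ * rot qK α = rot qK (-α) * qJ := by
  have e : -α / 2 = -(α / 2) := by ring
  simp only [rot, e, Real.cos_neg, Real.sin_neg, mul_add, add_mul, mul_smul_comm, smul_mul_assoc,
    mul_one, one_mul, qJ_mul_qK, qK_mul_qJ]
  module

/-- `y` on the frames with given azimuth and slope -/
theorem mode_eval {y : ℍ → ℝ} (hu : IsU y) (hm : Mode 4 y) (α t : ℝ) :
    y (rot qK α * xj t) = Real.cos (4 * α) * y (xj t) := by
  have h1 := hm.rot α (xj t)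
  have h2 : y (rot qK (-α) * xj t) = y (rot qK α * xj t) := by
    rw [← hm.mulJ (rot qK α * xj t), ← mul_assoc, qJ_mul_rotK, mul_assoc, ← xj_mul_qJ, ← mul_assoc,
      mulJ_of_isU hu]
  rw [h2] at h1
  push_cast at h1
  linarith

theorem xj_neg (t : ℝ) : xj (-t) * qK = qK * xj t := by
  have e : -(-Real.arctan t) / 2 = -(-Real.arctan t / 2) := by ring
  simp only [xj, Real.arctan_neg, rot, e, Real.cos_neg, Real.sin_neg, mul_add, add_mul,
    mul_smul_comm, smul_mul_assoc, mul_one, one_mul, qJ_mul_qK, qK_mul_qJ]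
  module

theorem gy_even {y : ℍ → ℝ} (hu : IsU y) (hm : Mode 4 y) (t : ℝ) :
    gy y (-t) = gy y t := by
  have h1 : y (qK * xj t) = y (xj t) := by
    have h2 := mode_eval hu hm π t
    rw [rot_pi] at h2
    rw [h2]
    have : Real.cos (4 * π) = 1 := by
      have := Real.cos_nat_mul_two_pi 2
      push_cast at this
      rw [← this]; congr 1; ring
    rw [this, one_mul]
  have h2 : y (xj (-t)) = y (xj t) := by
    rw [← hu.mulK (xj (-t)), xj_neg, h1]
  unfold gy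
  rw [h2]
  congr 2
  ring

theorem continuous_xj : Continuous xj := by
  unfold xj rot
  have := Real.continuous_arctan
  fun_prop

theorem gy_cont {y : ℍ → ℝ} (hy : Cts y) : Continuous (gy y) := by
  unfold gy
  refine Continuous.mul (by fun_prop) ?_
  exact hy.cont.comp_continuous continuous_xj xj_ne_zero

theorem gy_bdd {y : ℍ → ℝ} (hy : Cts y) : ∃ C : ℝ, ∀ t : ℝ, |gy y t| ≤ C * (1 + |t|) := by
  obtain ⟨M, hM⟩ := isCompact_shell.exists_bound_of_continuousOn (hy.cont.mono shell_subset)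
  refine ⟨M, fun t => ?_⟩
  have h1 : |y (xj t)| ≤ M := by
    refine hM _ ?_
    have : ‖xj t‖ = 1 := norm_rot isImUnit_J _
    simp [shell, this]
  have h2 : Real.sqrt (1 + t ^ 2) ≤ 1 + |t| := by
    rw [Real.sqrt_le_left (by positivity)]
    nlinarith [abs_nonneg t, sq_abs t]
  unfold gy
  rw [abs_mul, abs_of_nonneg (Real.sqrt_nonneg _), mul_comm]
  have hM0 : 0 ≤ M := (abs_nonneg _).trans h1
  exact mul_le_mul h1 h2 (Real.sqrt_nonneg _) hM0

theorem gy_zero {y : ℍ → ℝ} (hy : Cts y) (hu : IsU y) (hm : Mode 4 y)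
    (h : ∀ t : ℝ, 0 < t → gy y t = 0) (x : ℍ) (hx : x ≠ 0) : y x = 0 := by
  have hcont := gy_cont hy
  have hall : ∀ t : ℝ, gy y t = 0 := by
    intro t
    rcases lt_trichotomy t 0 with ht | ht | ht
    · rw [← gy_even hu hm]; exact h _ (by linarith)
    · subst ht
      have h1 : Tendsto (gy y) (𝓝[>] 0) (𝓝 (gy y 0)) :=
        (hcont.tendsto 0).mono_left nhdsWithin_le_nhds
      have h2 : Tendsto (gy y) (𝓝[>] 0) (𝓝 0) := by
        refine tendsto_const_nhds.congr' ?_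
        filter_upwards [self_mem_nhdsWithin] with t ht
        exact (h t ht).symm
      exact tendsto_nhds_unique h1 h2
    · exact h t ht
  have hxj : ∀ t : ℝ, y (xj t) = 0 := by
    intro t
    have h1 := hall t
    unfold gy at h1
    have h2 : Real.sqrt (1 + t ^ 2) ≠ 0 := (Real.sqrt_pos.2 (by positivity)).ne'
    exact (mul_eq_zero.1 h1).resolve_left h2
  have hn := norm_fu hx
  have hsum : fu x 0 ^ 2 + fu x 1 ^ 2 + fu x 2 ^ 2 = 1 := by
    have := congrArg (· ^ 2) hn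
    simp only [EuclideanSpace.norm_sq_eq, Fin.sum_univ_three, Real.norm_eq_abs, sq_abs] at this
    simpa using this
  by_cases hp : fu x 0 ^ 2 + fu x 1 ^ 2 = 0
  · -- at the poles
    have h0 : fu x 0 = 0 := by nlinarith [sq_nonneg (fu x 0), sq_nonneg (fu x 1)]
    have h1 : fu x 1 = 0 := by nlinarith [sq_nonneg (fu x 0), sq_nonneg (fu x 1)]
    have key : ∀ α : ℝ, y (rot qK α * x) = y x := by
      intro α
      refine eq_of_fu hy hu (lrot_ne_zero isImUnit_K hx α) hx ?_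
      have e1 : conjQ x qI = (fu x 2) • qK := by
        apply Quaternion.ext
        · rw [re_conjQ hx]; simp [qI, qK]
        · have : (conjQ x qI).imI = fu x 0 := rfl
          rw [this, h0]; simp [qK]
        · have : (conjQ x qI).imJ = fu x 1 := rfl
          rw [this, h1]; simp [qK]
        · have : (conjQ x qI).imK = fu x 2 := rfl
          rw [this]; simp [qK]
      have e2 : conjQ (rot qK α * x) qI = conjQ x qI := by
        rw [conjQ_mul, e1, conjQ_smul, conj_rot_self isImUnit_K]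
      simp only [fu, fr, e2]
    have h2 := hm.rot (π / 4) x
    rw [key, key] at h2
    have : Real.cos (((4:ℕ):ℝ) * (π / 4)) = -1 := by
      rw [show ((4:ℕ):ℝ) * (π / 4) = π by push_cast; ring, Real.cos_pi]
    rw [this] at h2
    linarith
  · have hpos : 0 < fu x 0 ^ 2 + fu x 1 ^ 2 :=
      lt_of_le_of_ne (by positivity) (Ne.symm hp)
    set ρ := Real.sqrt (fu x 0 ^ 2 + fu x 1 ^ 2) with hρ
    have hρ0 : 0 < ρ := Real.sqrt_pos.2 hpos
    have hρ2 : ρ ^ 2 = fu x 0 ^ 2 + fu x 1 ^ 2 := Real.sq_sqrt hpos.le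
    set z : ℂ := ⟨fu x 0, fu x 1⟩ with hz
    have hzn : ‖z‖ = ρ := by
      rw [hρ, Complex.norm_eq_sqrt_sq_add_sq]
    set α := Complex.arg z with hα
    have hc : ρ * Real.cos α = fu x 0 := by
      rw [← hzn, hα, Complex.norm_mul_cos_arg]
    have hs : ρ * Real.sin α = fu x 1 := by
      rw [← hzn, hα, Complex.norm_mul_sin_arg]
    set t := fu x 2 / ρ with ht
    have hsq : Real.sqrt (1 + t ^ 2) = 1 / ρ := by
      rw [show 1 + t ^ 2 = (1 / ρ) ^ 2 by
        rw [ht]; field_simp; rw [hρ2]; linarith]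
      exact Real.sqrt_sq (by positivity)
    have e : fu x = fu (rot qK α * xj t) := by
      rw [fu_rotK_xj, hsq]
      ext i
      fin_cases i
      · simp [← hc]; ring
      · simp [← hs]; ring
      · simp [ht]; field_simp
    rw [eq_of_fu hy hu hx (lrot_ne_zero isImUnit_K (xj_ne_zero t) α) e, mode_eval hu hm, hxj,
      mul_zero]

/-! ### the circle of directions in the plane of slope `a` -/

noncomputable def bb (a : ℝ) : ℝ := Real.sqrt (1 + a ^ 2)

noncomputable def Dd (a θ : ℝ) : ℝ := Real.sqrt (1 + a ^ 2 * Real.sin θ ^ 2)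

noncomputable def tt (a θ : ℝ) : ℝ := a * Real.cos θ / Dd a θ

theorem bb_pos (a : ℝ) : 0 < bb a := Real.sqrt_pos.2 (by positivity)
theorem bb_sq (a : ℝ) : bb a ^ 2 = 1 + a ^ 2 := Real.sq_sqrt (by positivity)
theorem Dd_pos (a θ : ℝ) : 0 < Dd a θ := Real.sqrt_pos.2 (by positivity)
theorem Dd_sq (a θ : ℝ) : Dd a θ ^ 2 = 1 + a ^ 2 * Real.sin θ ^ 2 := Real.sq_sqrt (by positivity)

theorem tt_mul (a θ : ℝ) : tt a θ * Dd a θ = a * Real.cos θ := by
  have := (Dd_pos a θ).ne'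
  unfold tt; field_simp

/-- `D² (1 + t²) = 1 + a²` -/
theorem rel2 (a θ : ℝ) : Dd a θ ^ 2 * (1 + tt a θ ^ 2) = 1 + a ^ 2 := by
  have h1 := tt_mul a θ
  have h2 := Dd_sq a θ
  have h3 := Real.sin_sq_add_cos_sq θ
  calc Dd a θ ^ 2 * (1 + tt a θ ^ 2) = Dd a θ ^ 2 + (tt a θ * Dd a θ) ^ 2 := by ring
    _ = 1 + a ^ 2 * (Real.sin θ ^ 2 + Real.cos θ ^ 2) := by rw [h1, h2]; ring
    _ = 1 + a ^ 2 := by rw [h3]; ring

theorem hasDerivAt_Dd (a θ : ℝ) :
    HasDerivAt (Dd a) (a ^ 2 * Real.sin θ * Real.cos θ / Dd a θ) θ := by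
  have h1 : HasDerivAt (fun θ => 1 + a ^ 2 * Real.sin θ ^ 2)
      (a ^ 2 * (2 * Real.sin θ * Real.cos θ)) θ := by
    have h := (((Real.hasDerivAt_sin θ).pow 2).const_mul (a ^ 2)).const_add 1
    refine h.congr_deriv ?_
    push_cast; ring
  have h2 := h1.sqrt (by positivity : (1 + a ^ 2 * Real.sin θ ^ 2 : ℝ) ≠ 0)
  refine h2.congr_deriv ?_
  change _ / (2 * Dd a θ) = _
  have := (Dd_pos a θ).ne'
  field_simp

theorem hasDerivAt_tt (a θ : ℝ) :
    HasDerivAt (tt a) (-(a * (1 + a ^ 2) * Real.sin θ / Dd a θ ^ 3)) θ := by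
  have hD := (Dd_pos a θ).ne'
  have h1 := ((Real.hasDerivAt_cos θ).const_mul a).div (hasDerivAt_Dd a θ) hD
  refine h1.congr_deriv ?_
  have h2 := Dd_sq a θ
  have h3 := Real.sin_sq_add_cos_sq θ
  have h4 : Dd a θ ^ 2 + a ^ 2 * Real.cos θ ^ 2 = 1 + a ^ 2 := by
    rw [h2]; linear_combination a ^ 2 * h3
  field_simp
  linear_combination (-(a * Real.sin θ)) * h4

section profile

variable {ψ : ℝ → ℝ}

/-- `R = t ψ - (1 + t²) ψ'` -/
noncomputable def Rf (ψ : ℝ → ℝ) (t : ℝ) : ℝ := t * ψ t - (1 + t ^ 2) * deriv ψ t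

theorem psi_d1 (h : ContDiff ℝ ∞ ψ) (t : ℝ) : HasDerivAt ψ (deriv ψ t) t :=
  ((h.differentiable (by simp)) t).hasDerivAt

theorem psi_smooth_d (h : ContDiff ℝ ∞ ψ) : ContDiff ℝ ∞ (deriv ψ) := by
  exact ((contDiff_infty_iff_deriv (f := ψ)).1 h).2

theorem psi_d2 (h : ContDiff ℝ ∞ ψ) (t : ℝ) : HasDerivAt (deriv ψ) (deriv (deriv ψ) t) t :=
  psi_d1 (psi_smooth_d h) t

theorem hasDerivAt_Rf (h : ContDiff ℝ ∞ ψ) (t : ℝ) :
    HasDerivAt (Rf ψ) (Sf ψ t - (1 + t ^ 2) * deriv (deriv ψ) t) t := by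
  have h1 := (hasDerivAt_id t).mul (psi_d1 h t)
  have h2 := (((hasDerivAt_id t).pow 2).const_add 1).mul (psi_d2 h t)
  refine (h1.sub h2).congr_deriv ?_
  simp [Sf]
  ring

theorem hasDerivAt_P (h : ContDiff ℝ ∞ ψ) (a θ : ℝ) :
    HasDerivAt (fun θ => Dd a θ / bb a * ψ (tt a θ)) (a * Real.sin θ / bb a * Rf ψ (tt a θ)) θ := by
  have h1 := (hasDerivAt_Dd a θ).div_const (bb a)
  have h2 := (psi_d1 h (tt a θ)).comp θ (hasDerivAt_tt a θ)
  refine (h1.mul h2).congr_deriv ?_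
  have hD := (Dd_pos a θ).ne'
  have hb := (bb_pos a).ne'
  have e1 := tt_mul a θ
  have e2 := rel2 a θ
  simp only [Function.comp_apply, Rf]
  rw [← e2]
  field_simp
  rw [← e1]
  ring

theorem hasDerivAt_P' (h : ContDiff ℝ ∞ ψ) (a θ : ℝ) :
    HasDerivAt (fun θ => a * Real.sin θ / bb a * Rf ψ (tt a θ))
      (bb a / Dd a θ ^ 3 * (Sf ψ (tt a θ) + (a ^ 2 - tt a θ ^ 2) * deriv (deriv ψ) (tt a θ))
        - Dd a θ / bb a * ψ (tt a θ)) θ := by
  have h1 := ((Real.hasDerivAt_sin θ).const_mul a).div_const (bb a)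
  have h2 := (hasDerivAt_Rf h (tt a θ)).comp θ (hasDerivAt_tt a θ)
  refine (h1.mul h2).congr_deriv ?_
  have hD := (Dd_pos a θ).ne'
  have hb := (bb_pos a).ne'
  have e1 := tt_mul a θ
  have e2 := rel2 a θ
  have e3 := Dd_sq a θ
  have e4 := bb_sq a
  simp only [Function.comp_apply, Rf, Sf]
  rw [← e1]
  generalize tt a θ = t at *
  generalize Dd a θ = D at *
  generalize bb a = b at *
  generalize deriv (deriv ψ) t = k at *
  generalize deriv ψ t = d at *
  generalize ψ t = f at *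
  generalize Real.sin θ = s at *
  have e5 : a ^ 2 * s ^ 2 = D ^ 2 - 1 := by linarith
  have e6 : b ^ 2 = D ^ 2 * (1 + t ^ 2) := by rw [e4, e2]
  have e7 : a ^ 2 = D ^ 2 * (1 + t ^ 2) - 1 := by linarith
  have e8 : a * s / b * ((f - t * d - (1 + t ^ 2) * k) * -(a * (1 + a ^ 2) * s / D ^ 3))
      = -(a ^ 2 * s ^ 2) * (1 + a ^ 2) / (b * D ^ 3) * (f - t * d - (1 + t ^ 2) * k) := by
    field_simp
  have e9 : b / D ^ 3 * (f - t * d + (a ^ 2 - t ^ 2) * k)
      = b ^ 2 / (b * D ^ 3) * (f - t * d + (a ^ 2 - t ^ 2) * k) := by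
    field_simp
  rw [e8, e9, e5, e6, e7]
  field_simp
  ring

end profile

theorem sqrt_circle (a θ : ℝ) : Real.sqrt (fu (xj a * rot qK θ) 0 ^ 2 + fu (xj a * rot qK θ) 1 ^ 2)
    = Dd a θ / bb a := by
  rw [fu_circle]
  have hb := (bb_pos a).ne'
  have e : (Real.cos θ / Real.sqrt (1 + a ^ 2)) ^ 2 + Real.sin θ ^ 2 = (Dd a θ / bb a) ^ 2 := by
    change (Real.cos θ / bb a) ^ 2 + Real.sin θ ^ 2 = _
    rw [div_pow, div_pow, Dd_sq]
    have h3 := Real.sin_sq_add_cos_sq θ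
    have h4 := bb_sq a
    field_simp
    rw [h4]
    linear_combination h3
  have e' : (!₂[Real.cos θ / Real.sqrt (1 + a ^ 2), Real.sin θ,
      a * Real.cos θ / Real.sqrt (1 + a ^ 2)] : E3) 0 ^ 2 +
      (!₂[Real.cos θ / Real.sqrt (1 + a ^ 2), Real.sin θ,
      a * Real.cos θ / Real.sqrt (1 + a ^ 2)] : E3) 1 ^ 2 = (Dd a θ / bb a) ^ 2 := by
    simpa using e
  rw [e', Real.sqrt_sq (div_nonneg (Dd_pos a θ).le (bb_pos a).le)]

theorem p_circle {ψ : ℝ → ℝ} {p : SF} (hb : IsBody ψ p) (a θ : ℝ) :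
    p (xj a * rot qK θ) = Dd a θ / bb a * ψ (tt a θ) := by
  have hx : xj a * rot qK θ ≠ 0 := rrot_ne_zero isImUnit_K (xj_ne_zero a) θ
  have hs := sqrt_circle a θ
  have hpos : 0 < fu (xj a * rot qK θ) 0 ^ 2 + fu (xj a * rot qK θ) 1 ^ 2 := by
    rw [← Real.sqrt_pos, hs]
    exact div_pos (Dd_pos a θ) (bb_pos a)
  rw [hb _ hx hpos, hs]
  congr 2
  have e : fu (xj a * rot qK θ) 2 = a * Real.cos θ / bb a := by
    rw [fu_circle]; rfl
  rw [e, tt]
  have h1 := (Dd_pos a θ).ne'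
  have h2 := (bb_pos a).ne'
  field_simp

theorem DX_circle {ψ : ℝ → ℝ} (h : ContDiff ℝ ∞ ψ) {p : SF} (hb : IsBody ψ p) (a θ : ℝ) :
    (SF.DX p) (xj a * rot qK θ) = a * Real.sin θ / bb a * Rf ψ (tt a θ) := by
  have h1 := SF.hasDerivAt_DX p (xj_ne_zero a) θ
  have h2 := hasDerivAt_P h a θ
  have e : (fun t => p (xj a * rot qK t)) = fun θ => Dd a θ / bb a * ψ (tt a θ) :=
    funext fun θ => p_circle hb a θ
  rw [e] at h1
  exact h1.unique h2

theorem DXX_circle {ψ : ℝ → ℝ} (h : ContDiff ℝ ∞ ψ) {p : SF} (hb : IsBody ψ p) (a θ : ℝ) :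
    (SF.DX (SF.DX p)) (xj a * rot qK θ) =
      bb a / Dd a θ ^ 3 * (Sf ψ (tt a θ) + (a ^ 2 - tt a θ ^ 2) * deriv (deriv ψ) (tt a θ))
        - Dd a θ / bb a * ψ (tt a θ) := by
  have h1 := SF.hasDerivAt_DX (SF.DX p) (xj_ne_zero a) θ
  have h2 := hasDerivAt_P' h a θ
  have e : (fun t => (SF.DX p) (xj a * rot qK t))
      = fun θ => a * Real.sin θ / bb a * Rf ψ (tt a θ) :=
    funext fun θ => DX_circle h hb a θ
  rw [e] at h1
  exact h1.unique h2

theorem wf_circle {ψ : ℝ → ℝ} (h : ContDiff ℝ ∞ ψ) {p : SF} (hb : IsBody ψ p) (a θ : ℝ) :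
    wf p (xj a * rot qK θ) = bb a ^ 4 / Dd a θ ^ 3 * W1 ψ (tt a θ) a := by
  unfold wf W1
  rw [DXX_circle h hb, DX_circle h hb, p_circle hb]
  have hD := (Dd_pos a θ).ne'
  have hb0 := bb_pos a
  have e2 := rel2 a θ
  have e3 := Dd_sq a θ
  have key : (Dd a θ / bb a * ψ (tt a θ)) ^ 2 + (a * Real.sin θ / bb a * Rf ψ (tt a θ)) ^ 2
      = (ψ (tt a θ) ^ 2 + (a ^ 2 - tt a θ ^ 2) *
        (deriv ψ (tt a θ) ^ 2 + Sf ψ (tt a θ) ^ 2)) / bb a ^ 2 := by
    have hb' := hb0.ne'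
    simp only [Rf, Sf]
    generalize tt a θ = t at *
    generalize Dd a θ = D at *
    generalize deriv ψ t = d at *
    generalize ψ t = f at *
    generalize Real.sin θ = s at *
    have e5 : a ^ 2 * s ^ 2 = D ^ 2 - 1 := by linarith
    have e7 : a ^ 2 = D ^ 2 * (1 + t ^ 2) - 1 := by linarith
    have e8 : (D / bb a * f) ^ 2 + (a * s / bb a * (t * f - (1 + t ^ 2) * d)) ^ 2
        = (D ^ 2 * f ^ 2 + a ^ 2 * s ^ 2 * (t * f - (1 + t ^ 2) * d) ^ 2) / bb a ^ 2 := by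
      field_simp
    rw [e8, e5, e7]
    congr 1
    ring
  rw [key, Real.sqrt_div' _ (by positivity), Real.sqrt_sq hb0.le]
  have hb' := hb0.ne'
  rw [show Dd a θ / bb a * ψ (tt a θ) + (bb a / Dd a θ ^ 3 * (Sf ψ (tt a θ) +
    (a ^ 2 - tt a θ ^ 2) * deriv (deriv ψ) (tt a θ)) - Dd a θ / bb a * ψ (tt a θ)) =
    bb a / Dd a θ ^ 3 * (Sf ψ (tt a θ) +
    (a ^ 2 - tt a θ ^ 2) * deriv (deriv ψ) (tt a θ)) by ring]
  rw [div_pow, div_div_eq_mul_div]
  ring

/-! ### the azimuth -/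

noncomputable def den (a θ : ℝ) : ℝ := Real.cos θ ^ 2 + bb a * Real.sin θ ^ 2

theorem den_pos (a θ : ℝ) : 0 < den a θ := by
  unfold den
  have h1 := bb_pos a
  have h3 := Real.sin_sq_add_cos_sq θ
  rcases eq_or_ne (Real.sin θ) 0 with h | h
  · rw [h] at h3 ⊢
    nlinarith
  · have : 0 < Real.sin θ ^ 2 := by positivity
    nlinarith [sq_nonneg (Real.cos θ), mul_pos h1 this]

noncomputable def tau (a θ : ℝ) : ℝ := (bb a - 1) * Real.sin θ * Real.cos θ / den a θ

noncomputable def phi (a θ : ℝ) : ℝ := θ + Real.arctan (tau a θ)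

theorem one_add_tau (a θ : ℝ) : 1 + tau a θ ^ 2 = (Dd a θ / den a θ) ^ 2 := by
  have h1 := (den_pos a θ).ne'
  have h3 := Real.sin_sq_add_cos_sq θ
  have h4 := bb_sq a
  have hc : Real.cos θ ^ 2 = 1 - Real.sin θ ^ 2 := by linarith
  unfold tau
  rw [div_pow, div_pow, Dd_sq, eq_div_iff (pow_ne_zero 2 h1), add_mul, one_mul,
    div_mul_cancel₀ _ (pow_ne_zero 2 h1)]
  unfold den
  have e : ((bb a - 1) * Real.sin θ * Real.cos θ) ^ 2
      = (bb a - 1) ^ 2 * Real.sin θ ^ 2 * Real.cos θ ^ 2 := by ring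
  rw [e, hc]
  linear_combination (Real.sin θ ^ 2) * h4

theorem sqrt_tau (a θ : ℝ) : Real.sqrt (1 + tau a θ ^ 2) = Dd a θ / den a θ := by
  rw [one_add_tau, Real.sqrt_sq (div_nonneg (Dd_pos a θ).le (den_pos a θ).le)]

theorem cos_phi (a θ : ℝ) : Real.cos (phi a θ) = Real.cos θ / Dd a θ := by
  have h1 := (den_pos a θ).ne'
  have h2 := (Dd_pos a θ).ne'
  have h3 := Real.sin_sq_add_cos_sq θ
  rw [phi, Real.cos_add, Real.cos_arctan, Real.sin_arctan, sqrt_tau]
  unfold tau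
  field_simp
  unfold den
  linear_combination (bb a * Real.cos θ - (bb a - 1) * Real.cos θ) * h3

theorem sin_phi (a θ : ℝ) : Real.sin (phi a θ) = bb a * Real.sin θ / Dd a θ := by
  have h1 := (den_pos a θ).ne'
  have h2 := (Dd_pos a θ).ne'
  have h3 := Real.sin_sq_add_cos_sq θ
  rw [phi, Real.sin_add, Real.cos_arctan, Real.sin_arctan, sqrt_tau]
  unfold tau
  field_simp
  unfold den
  linear_combination (bb a * Real.sin θ) * h3

theorem hasDerivAt_phi (a θ : ℝ) : HasDerivAt (phi a) (bb a / Dd a θ ^ 2) θ := by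
  have h1 := (den_pos a θ).ne'
  have hs := Real.hasDerivAt_sin θ
  have hc := Real.hasDerivAt_cos θ
  have hden : HasDerivAt (den a) (2 * (bb a - 1) * Real.sin θ * Real.cos θ) θ := by
    have := (hc.pow 2).add ((hs.pow 2).const_mul (bb a))
    refine this.congr_deriv ?_
    push_cast; ring
  have hnum : HasDerivAt (fun θ => (bb a - 1) * Real.sin θ * Real.cos θ)
      ((bb a - 1) * (Real.cos θ ^ 2 - Real.sin θ ^ 2)) θ := by
    have := (hs.const_mul (bb a - 1)).mul hc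
    refine this.congr_deriv ?_
    ring
  have htau := hnum.div hden h1
  have h := (hasDerivAt_id θ).add htau.arctan
  refine h.congr_deriv ?_
  have e : (1 + ((bb a - 1) * Real.sin θ * Real.cos θ / den a θ) ^ 2) = (Dd a θ / den a θ) ^ 2 :=
    one_add_tau a θ
  rw [Pi.div_apply, e]
  have h2 := (Dd_pos a θ).ne'
  have h3 := Real.sin_sq_add_cos_sq θ
  have hc : Real.cos θ ^ 2 = 1 - Real.sin θ ^ 2 := by linarith
  have h4 := bb_sq a
  have h5 := Dd_sq a θ
  field_simp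
  rw [h5]
  unfold den
  rw [hc]
  linear_combination (-(Real.sin θ ^ 2)) * h4

/-! ### positivity of the denominator -/

theorem psi_odd {ψ : ℝ → ℝ} (he : ∀ t, ψ (-t) = ψ t) (t : ℝ) : deriv ψ (-t) = - deriv ψ t := by
  have h1 : (fun t => ψ (-t)) = ψ := funext he
  have h2 := deriv_comp_neg ψ t
  rw [h1] at h2
  rw [h2, neg_neg]

theorem psi_even2 {ψ : ℝ → ℝ} (he : ∀ t, ψ (-t) = ψ t) (t : ℝ) :
    deriv (deriv ψ) (-t) = deriv (deriv ψ) t := by
  have h1 : (fun t => deriv ψ (-t)) = fun t => - deriv ψ t := funext (psi_odd he)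
  have h2 := deriv_comp_neg (deriv ψ) t
  rw [h1] at h2
  have h3 : deriv (fun t => - deriv ψ t) t = - deriv (deriv ψ) t := deriv.fun_neg ..
  rw [h3] at h2
  linarith

theorem psi_pos {ψ : ℝ → ℝ} (he : ∀ t, ψ (-t) = ψ t)
    (hc : ∀ t, 0 < deriv (deriv ψ) t) (hS : ∀ t, 0 < Sf ψ t) (t : ℝ) : 0 < ψ t := by
  have h0 : deriv ψ 0 = 0 := by
    have := psi_odd he 0
    rw [neg_zero] at this
    linarith
  have hmono : StrictMono (deriv ψ) := strictMono_of_deriv_pos hc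
  have h1 : 0 ≤ t * deriv ψ t := by
    rcases le_total 0 t with ht | ht
    · have := hmono.monotone ht
      rw [h0] at this
      exact mul_nonneg ht this
    · have := hmono.monotone ht
      rw [h0] at this
      exact mul_nonneg_of_nonpos_of_nonpos ht this
  have h2 := hS t
  unfold Sf at h2
  linarith

theorem W1_even {ψ : ℝ → ℝ} (he : ∀ t, ψ (-t) = ψ t) (t a : ℝ) : W1 ψ (-t) a = W1 ψ t a := by
  have hS : Sf ψ (-t) = Sf ψ t := by
    unfold Sf
    rw [he, psi_odd he]; ring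
  unfold W1
  rw [hS, psi_even2 he, he, psi_odd he]
  congr 2
  · ring
  · congr 2
    ring

/-- the integrand in the azimuth -/
noncomputable def Hf (ψ g : ℝ → ℝ) (a φ : ℝ) : ℝ :=
  Real.cos (4 * φ) * g (a * Real.cos φ) * W1 ψ (a * Real.cos φ) a

theorem Hf_cont {h tc : ℝ} {ψ g : ℝ → ℝ} (hp : IsProf h tc ψ) (hg : Continuous g) (a : ℝ) :
    Continuous (Hf ψ g a) := by
  have c0 : Continuous ψ := hp.smooth.continuous
  have c1 : Continuous (deriv ψ) := (psi_smooth_d hp.smooth).continuous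
  have c2 : Continuous (deriv (deriv ψ)) := (psi_smooth_d (psi_smooth_d hp.smooth)).continuous
  have cS : Continuous (Sf ψ) := by unfold Sf; fun_prop
  unfold Hf W1
  refine Continuous.mul (by fun_prop) (Continuous.div (by fun_prop) (by fun_prop) fun φ => ?_)
  have h1 := psi_pos hp.even hp.conv hp.S_pos (a * Real.cos φ)
  have h2 : 0 ≤ a ^ 2 - (a * Real.cos φ) ^ 2 := by
    have := Real.sin_sq_add_cos_sq φ
    nlinarith [sq_nonneg (a * Real.sin φ)]
  refine pow_ne_zero 3 (Real.sqrt_pos.2 ?_).ne'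
  have h3 : 0 ≤ (a ^ 2 - (a * Real.cos φ) ^ 2) * (deriv ψ (a * Real.cos φ) ^ 2
      + Sf ψ (a * Real.cos φ) ^ 2) := mul_nonneg h2 (by positivity)
  have h4 : 0 < ψ (a * Real.cos φ) ^ 2 := by positivity
  linarith

theorem integral_quarter {H : ℝ → ℝ} (hH : Continuous H) (h1 : ∀ φ, H (φ + π) = H φ)
    (h2 : ∀ φ, H (π - φ) = H φ) :
    ∫ φ in (0:ℝ)..(2 * π), H φ = 4 * ∫ φ in (0:ℝ)..(π / 2), H φ := by
  have i : ∀ a b : ℝ, IntervalIntegrable H volume a b := fun a b => hH.intervalIntegrable a b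
  have e1 : ∫ φ in (0:ℝ)..(2 * π), H φ = (∫ φ in (0:ℝ)..π, H φ) + ∫ φ in π..(2 * π), H φ :=
    (intervalIntegral.integral_add_adjacent_intervals (i _ _) (i _ _)).symm
  have e2 : ∫ φ in π..(2 * π), H φ = ∫ φ in (0:ℝ)..π, H φ := by
    have := intervalIntegral.integral_comp_add_right (a := 0) (b := π) H π
    rw [zero_add, show π + π = 2 * π by ring] at this
    rw [← this]
    exact intervalIntegral.integral_congr fun φ _ => h1 φ
  have e3 : ∫ φ in (0:ℝ)..π, H φ = (∫ φ in (0:ℝ)..(π / 2), H φ) + ∫ φ in (π / 2)..π, H φ :=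
    (intervalIntegral.integral_add_adjacent_intervals (i _ _) (i _ _)).symm
  have e4 : ∫ φ in (π / 2)..π, H φ = ∫ φ in (0:ℝ)..(π / 2), H φ := by
    have := intervalIntegral.integral_comp_sub_left (a := 0) (b := π / 2) H π
    rw [sub_zero, show π - π / 2 = π / 2 by ring] at this
    rw [← this]
    exact intervalIntegral.integral_congr fun φ _ => h2 φ
  rw [e1, e2, e3, e4]
  ring

theorem y_circle {y : ℍ → ℝ} (hy : Cts y) (hu : IsU y) (hm : Mode 4 y) (a θ : ℝ) :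
    y (xj a * rot qK θ) = Dd a θ / bb a * (Real.cos (4 * phi a θ) * gy y (tt a θ)) := by
  have hD := Dd_pos a θ
  have hb := bb_pos a
  have hD' := hD.ne'
  have hb' := hb.ne'
  have ht : Real.sqrt (1 + tt a θ ^ 2) = bb a / Dd a θ := by
    have e : 1 + tt a θ ^ 2 = (bb a / Dd a θ) ^ 2 := by
      rw [div_pow, eq_div_iff (pow_ne_zero 2 hD'), bb_sq, ← rel2 a θ]
      ring
    rw [e, Real.sqrt_sq (div_nonneg hb.le hD.le)]
  have e : fu (xj a * rot qK θ) = fu (rot qK (phi a θ) * xj (tt a θ)) := by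
    rw [fu_circle, fu_rotK_xj, ht, cos_phi, sin_phi]
    change !₂[Real.cos θ / bb a, Real.sin θ, a * Real.cos θ / bb a] = _
    have e1 : Real.cos θ / Dd a θ / (bb a / Dd a θ) = Real.cos θ / bb a := by field_simp
    have e2 : bb a * Real.sin θ / Dd a θ / (bb a / Dd a θ) = Real.sin θ := by field_simp
    have e3 : tt a θ / (bb a / Dd a θ) = a * Real.cos θ / bb a := by
      rw [← tt_mul a θ]; field_simp
    rw [e1, e2, e3]
  rw [eq_of_fu hy hu (rrot_ne_zero isImUnit_K (xj_ne_zero a) θ)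
    (lrot_ne_zero isImUnit_K (xj_ne_zero _) _) e, mode_eval hu hm]
  unfold gy
  rw [ht]
  field_simp

theorem cos_four_phi_pi (φ : ℝ) : Real.cos (4 * (φ + π)) = Real.cos (4 * φ) := by
  have e : 4 * (φ + π) = 4 * φ + (2:ℕ) * (2 * π) := by push_cast; ring
  rw [e, Real.cos_add_nat_mul_two_pi]

theorem cos_four_pi_sub (φ : ℝ) : Real.cos (4 * (π - φ)) = Real.cos (4 * φ) := by
  have e : 4 * (π - φ) = (2:ℕ) * (2 * π) - 4 * φ := by push_cast; ring
  rw [e, Real.cos_nat_mul_two_pi_sub]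

theorem red_T {h tc : ℝ} {ψ : ℝ → ℝ} {p : SF} (hp : IsProf h tc ψ) (hb : IsBody ψ p)
    {y : ℍ → ℝ} (hy : Cts y) (hu : IsU y) (hm : Mode 4 y) (a : ℝ) :
    avgK (fun z => wf p z * y z) (xj a) = (2 / π) * (1 + a ^ 2) * T1 ψ (gy y) a := by
  have hg := gy_cont hy
  have hH := Hf_cont hp hg a
  have he : ∀ t, gy y (-t) = gy y t := gy_even hu hm
  have s1 : ∀ φ, Hf ψ (gy y) a (φ + π) = Hf ψ (gy y) a φ := by
    intro φ
    unfold Hf
    rw [cos_four_phi_pi, Real.cos_add_pi, mul_neg, he, W1_even hp.even]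
  have s2 : ∀ φ, Hf ψ (gy y) a (π - φ) = Hf ψ (gy y) a φ := by
    intro φ
    unfold Hf
    rw [cos_four_pi_sub, Real.cos_pi_sub, mul_neg, he, W1_even hp.even]
  have key : ∫ θ in (0:ℝ)..(2 * π), wf p (xj a * rot qK θ) * y (xj a * rot qK θ)
      = (1 + a ^ 2) * ∫ φ in (0:ℝ)..(2 * π), Hf ψ (gy y) a φ := by
    have e1 : ∀ θ : ℝ, wf p (xj a * rot qK θ) * y (xj a * rot qK θ)
        = (1 + a ^ 2) * ((Hf ψ (gy y) a ∘ phi a) θ * (bb a / Dd a θ ^ 2)) := by
      intro θ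
      rw [wf_circle hp.smooth hb, y_circle hy hu hm, ← bb_sq a]
      have ht : a * Real.cos (phi a θ) = tt a θ := by rw [cos_phi, tt]; ring
      simp only [Function.comp_apply, Hf, ht]
      have hD' := (Dd_pos a θ).ne'
      have hb' := (bb_pos a).ne'
      field_simp
    simp only [e1]
    rw [intervalIntegral.integral_const_mul]
    congr 1
    have e2 := intervalIntegral.integral_comp_mul_deriv (a := 0) (b := 2 * π)
      (f := phi a) (f' := fun θ => bb a / Dd a θ ^ 2) (g := Hf ψ (gy y) a)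
      (fun θ _ => hasDerivAt_phi a θ)
      (Continuous.continuousOn (by
        refine Continuous.div continuous_const ?_ fun θ => pow_ne_zero 2 (Dd_pos a θ).ne'
        unfold Dd
        fun_prop)) hH
    rw [e2]
    have p0 : phi a 0 = 0 := by simp [phi, tau]
    have p1 : phi a (2 * π) = 2 * π := by simp [phi, tau]
    rw [p0, p1]
  unfold avgK
  rw [key, integral_quarter hH s1 s2]
  change _ = (2 / π) * (1 + a ^ 2) * ∫ φ in (0:ℝ)..(π / 2), Hf ψ (gy y) a φ
  have := Real.pi_ne_zero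
  field_simp
  ring

end H26

/-- RED. -/
theorem red_holds : RedFacts where
  T := fun _ _ _ _ hp _ hb _ hy hu hm a _ => H26.red_T hp hb hy hu hm a
  zero := fun _ hy hu hm h x hx => H26.gy_zero hy hu hm h x hx
  cont := fun _ hy => H26.gy_cont hy
  bdd := fun _ hy => H26.gy_bdd hy
  even := fun _ _ hu hm t => H26.gy_even hu hm t

end Pool.Agent.MP85963d
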